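import Pool.Agent.H.MP_a950c6_lc.Defs
import Pool.Agent.Lib.helper25.RelGr
import Pool.Agent.Lib.lead.CXBase

namespace Pool.Agent.H.MP_a950c6_lc

open Pool.Agent.Lib.CX Finset

theorem ls {K : Type} [DecidableEq K] (vs ws : List K) (r : K × K → Bool) (A : K → K → Prop)
    (h : ∀ x y, A x y ↔ x ≠ y ∧ (r (x, y) = true ∨ r (y, x) = true)) : HasRole (relGr vs r).G (relGr ws r).G ↔
    ∃ F : K → K, (∀ x ∈ vs, F x ∈ ws) ∧ (∀ x ∈ vs, ∀ y ∈ vs, A x y → A (F x) (F y)) ∧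
      ∀ x ∈ vs, ∀ z ∈ ws, A (F x) z → ∃ y ∈ vs, A x y ∧ F y = z := by
  have ad : ∀ vs u v, (relGr vs r).G.Adj u v ↔ A (relNm vs r u) (relNm vs r v) := fun vs u v =>
    (relGr_adj _ _ _ _).trans (h _ _).symm
  have m := fun vs u => (relNm_range vs r _).2 ⟨u, rfl⟩
  constructor
  · rintro ⟨c, hc⟩
    choose N hN using fun x => (relNm_range vs r x).1
    refine ⟨fun x => if h : x ∈ vs then relNm ws r (c (N x h)) else x, fun x h => ?_, fun x h y k e => ?_,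
      fun x h z k e => ?_⟩
    · simp only [h, dite_true]; exact m _ _
    · simp only [h, k, dite_true]
      exact (ad _ _ _).1 (c.map_rel ((ad _ _ _).2 (by rwa [hN x h, hN y k])))
    · simp only [h, dite_true] at e
      obtain ⟨z, rfl⟩ := (relNm_range ws r z).1 k
      obtain ⟨y, a, rfl⟩ := (hc (N x h)).ge ((ad _ _ _).2 e)
      refine ⟨_, m vs y, hN x h ▸ (ad _ _ _).1 a, ?_⟩
      simp only [m vs y, dite_true]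
      rw [relNm_inj vs r (hN _ (m vs y))]
  · rintro ⟨F, a, b, c⟩
    choose N hN using fun u => (relNm_range ws r _).1 (a _ (m vs u))
    have k : ∀ {u v}, (relGr vs r).G.Adj u v → (relGr ws r).G.Adj (N u) (N v) := fun {u v} h =>
      (ad _ _ _).2 (by rw [hN, hN]; exact b _ (m vs u) _ (m vs v) ((ad _ _ _).1 h))
    refine ⟨⟨N, k⟩, fun u => Set.Subset.antisymm ?_ fun z hz => ?_⟩
    · rintro _ ⟨v, h, rfl⟩; exact k h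
    · obtain ⟨y, d, e, f⟩ := c _ (m vs u) _ (m ws z) (hN u ▸ (ad _ _ _).1 hz)
      obtain ⟨y, rfl⟩ := (relNm_range vs r y).1 d
      exact ⟨y, (ad _ _ _).2 e, relNm_inj ws r ((hN y).trans f)⟩

abbrev K := ℕ × ℕ × ℕ × ℕ
def A0 (x y : K) : Prop := (x.2.1 = 0 ∧ (x.1 + 1 = y.1 ∨ (x.1 = y.1 ∧ y.2.1 ≠ 0))) ∨
  (x.2.1 ≠ 0 ∧ x.1 = y.1 ∧ x.2.1 = y.2.1 ∧ (x.2.2.1 = 0 ∨ x.2.2.1 = y.2.2.1))
instance (x y) : Decidable (A0 x y) := by unfold A0; infer_instance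
def A (x y : K) : Prop := x ≠ y ∧ (A0 x y ∨ A0 y x)
def In (N Z : ℕ) (sz : ℕ → ℕ) (db : ℕ → ℕ → ℕ → Prop) (x : K) : Prop :=
  x.1 ≤ Z ∧ ((x.2.1 = 0 ∧ x.2.2.1 = 0 ∧ x.2.2.2 = 0) ∨ (1 ≤ x.1 ∧ 1 ≤ x.2.1 ∧ x.2.1 ≤ sz x.1 ∧
    ((x.2.2.1 = 0 ∧ x.2.2.2 = 0) ∨ (x.2.2.1 / 2 ≤ N ∧ x.2.2.2 < x.2.2.1 / 2 ∧
      (x.2.2.1 % 2 = 0 ∨ db x.1 x.2.1 (x.2.2.1 / 2))))))

theorem lex {B i c i' c' : ℕ} (h : c < B) (h' : c' < B) : i * B + c ≤ i' * B + c' ↔ i < i' ∨ i = i' ∧ c ≤ c' := by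
  rcases lt_trichotomy i i' with e | rfl | e
  · have := Nat.mul_le_mul_right B e
    simp only [Nat.succ_mul] at this
    omega
  · omega
  · have := Nat.mul_le_mul_right B e
    simp only [Nat.succ_mul] at this
    omega

theorem lex3 {B i c p i' c' p' : ℕ} (h : c < B) (h' : c' < B) (k : p < B) (k' : p' < B) :
    (i * B + c) * B + p ≤ (i' * B + c') * B + p' ↔ i < i' ∨ i = i' ∧ (c < c' ∨ c = c' ∧ p ≤ p') := by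
  have := lex (i := i) (i' := i') h h'
  have := lex (i := i') (i' := i) h' h
  rw [lex k k']
  omega

theorem interval (vs : List K) (B : ℕ)
    (h : ∀ x ∈ vs, x.2.1 < B ∧ x.2.2.1 < B ∧ (x.2.1 = 0 → x.2.2.1 = 0 ∧ x.2.2.2 = 0)) :
    IsInterval (relGr vs fun e => decide (A0 e.1 e.2)).G := by
  have m := fun u => h _ ((relNm_range vs (fun e => decide (A0 e.1 e.2)) _).2 ⟨u, rfl⟩)
  let l : K → ℕ := fun x => (x.1 * (B + 1) + x.2.1) * (B + 1) + x.2.2.1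
  let r : K → ℕ := fun x => ((if x.2.1 = 0 then x.1 + 1 else x.1) * (B + 1) + if x.2.1 = 0 then B else x.2.1) * (B + 1) +
    if x.2.2.1 = 0 then B else x.2.2.1
  have k : ∀ u v, (l (relNm vs _ u) : ℝ) ≤ r (relNm vs _ v) ↔ _ := fun u v => by
    have := m u
    have := m v
    exact Nat.cast_le.trans (lex3 (by omega) (by split_ifs <;> omega) (by omega) (by split_ifs <;> omega))
  have k0 : ∀ u, (l (relNm vs _ u) : ℝ) ≤ r (relNm vs _ u) := fun u => (k u u).2 (by split_ifs <;> omega)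
  refine ⟨fun u => l (relNm vs _ u), fun u => r (relNm vs _ u), k0, fun u v => ?_⟩
  rw [relGr_adj, Set.Icc_inter_Icc, Set.nonempty_Icc, sup_le_iff, le_inf_iff, le_inf_iff, ← (relNm_inj _ _).ne_iff]
  simp only [k0, k, true_and, and_true, decide_eq_true_eq]
  have := m u
  have := m v
  generalize relNm vs _ u = x, relNm vs _ v = y at *
  refine and_congr_right fun ne => ?_
  simp only [A0, ne_eq, Prod.ext_iff] at ne ⊢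
  split_ifs <;> omega

theorem A_iff {i c p t i' c' p' t' : ℕ} : A (i, c, p, t) (i', c', p', t') ↔
    ¬(i = i' ∧ c = c' ∧ p = p' ∧ t = t') ∧ ((c = 0 ∧ (i + 1 = i' ∨ (i = i' ∧ c' ≠ 0))) ∨
      (c' = 0 ∧ (i' + 1 = i ∨ (i = i' ∧ c ≠ 0))) ∨ (c ≠ 0 ∧ i = i' ∧ c = c' ∧ (p = 0 ∨ p' = 0 ∨ p = p'))) := by
  simp only [A, A0, ne_eq, Prod.ext_iff]; omega

theorem In_iff {N Z sz db i c p t} : In N Z sz db (i, c, p, t) ↔ i ≤ Z ∧ ((c = 0 ∧ p = 0 ∧ t = 0) ∨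
    (1 ≤ i ∧ 1 ≤ c ∧ c ≤ sz i ∧ ((p = 0 ∧ t = 0) ∨ (p / 2 ≤ N ∧ t < p / 2 ∧ (p % 2 = 0 ∨ db i c (p / 2)))))) := .rfl

theorem In.w {N Z sz db i c p t} (h : In N Z sz db (i, c, p, t)) : i ≤ Z ∧ ((c = 0 ∧ p = 0 ∧ t = 0) ∨
    (1 ≤ i ∧ 1 ≤ c ∧ c ≤ sz i ∧ ((p = 0 ∧ t = 0) ∨ (p / 2 ≤ N ∧ t < p / 2)))) := by
  rw [In_iff] at h; tauto

abbrev InR (N : ℕ) := In N 1 (fun _ => N) fun _ c j => j = c

theorem InR_iff {N i c p t} : InR N (i, c, p, t) ↔ i ≤ 1 ∧ ((c = 0 ∧ p = 0 ∧ t = 0) ∨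
    (1 ≤ i ∧ 1 ≤ c ∧ c ≤ N ∧ ((p = 0 ∧ t = 0) ∨ (p / 2 ≤ N ∧ t < p / 2 ∧ (p % 2 = 0 ∨ p / 2 = c))))) := .rfl

theorem eq4 {i c p t i' c' p' t' : ℕ} (h : i = i' ∧ c = c' ∧ p = p' ∧ t = t') : (i, c, p, t) = (i', c', p', t') := by
  simp [h]

def Fm (π : ℕ → ℕ → ℕ) (x : K) : K := if x.2.1 = 0 then (x.1 % 2, 0, 0, 0) else
  (1, π x.1 x.2.1, if x.2.2.1 % 2 = 1 ∧ x.2.2.1 / 2 ≠ π x.1 x.2.1 then x.2.2.1 - 1 else x.2.2.1, x.2.2.2)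

theorem Fm_eq (π i c p t) : (c = 0 ∧ Fm π (i, c, p, t) = (i % 2, 0, 0, 0)) ∨ (c ≠ 0 ∧ ∃ q,
    ((p % 2 = 1 ∧ p / 2 ≠ π i c ∧ q = p - 1) ∨ ((p % 2 = 0 ∨ p / 2 = π i c) ∧ q = p)) ∧
      Fm π (i, c, p, t) = (1, π i c, q, t)) := by
  by_cases h : c = 0
  · exact .inl ⟨h, if_pos h⟩
  · refine .inr ⟨h, _, ?_, if_neg h⟩
    dsimp only
    split_ifs <;> omega

theorem bwd {N Z : ℕ} {sz : ℕ → ℕ} {db : ℕ → ℕ → ℕ → Prop} {π : ℕ → ℕ → ℕ}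
    (h1 : ∀ i ≤ Z, ∀ c ≤ sz i, 1 ≤ i → 1 ≤ c → 1 ≤ π i c ∧ π i c ≤ N ∧ db i c (π i c))
    (h2 : ∀ i ≤ Z, ∀ w ≤ N, 1 ≤ w → ∃ j ≤ Z, ∃ c ≤ sz j, (j = i ∨ j = i + 1) ∧ 1 ≤ j ∧ 1 ≤ c ∧ π j c = w)
    (hZ : 1 ≤ Z) : ∃ F : K → K, (∀ x, In N Z sz db x → InR N (F x)) ∧
      (∀ x, In N Z sz db x → ∀ y, In N Z sz db y → A x y → A (F x) (F y)) ∧
      ∀ x, In N Z sz db x → ∀ z, InR N z → A (F x) z → ∃ y, In N Z sz db y ∧ A x y ∧ F y = z := by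
  have h3 : ∀ i ≤ Z, ∀ c ≤ sz i, 1 ≤ i → 1 ≤ c → 1 ≤ π i c ∧ π i c ≤ N := fun i a c b d e =>
    ⟨(h1 i a c b d e).1, (h1 i a c b d e).2.1⟩
  refine ⟨Fm π, fun ⟨i, c, p, t⟩ a => ?_, fun ⟨i, c, p, t⟩ a ⟨i', c', p', t'⟩ b e => ?_,
    fun ⟨i, c, p, t⟩ a ⟨i', c', p', t'⟩ b e => ?_⟩
  · have := h3 i a.1 c
    have := a.w
    rcases Fm_eq π i c p t with ⟨h, k⟩ | ⟨h, q, hq, k⟩ <;> rw [k, InR_iff] <;> omega
  · have := h3 i a.1 c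
    have := h3 i' b.1 c'
    have : i = i' → c = c' → π i c = π i' c' := by rintro rfl rfl; rfl
    have := a.w
    have := b.w
    rcases Fm_eq π i c p t with ⟨h, k⟩ | ⟨h, q, hq, k⟩ <;> rcases Fm_eq π i' c' p' t' with ⟨h', k'⟩ | ⟨h', q', hq', k'⟩ <;>
      rw [k, k', A_iff] <;> rw [A_iff] at e <;> omega
  · have a1 := a.w
    have a2 := h3 i a.1 c
    rw [InR_iff] at b
    rcases Fm_eq π i c p t with ⟨h, k⟩ | ⟨h, q, hq, k⟩ <;> rw [k, A_iff] at e <;> by_cases h' : c' = 0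
    · obtain ⟨j, hj⟩ : ∃ j ≤ Z, j = i + 1 ∨ j + 1 = i := ⟨if i < Z then i + 1 else i - 1, by split_ifs <;> omega⟩
      exact ⟨(j, 0, 0, 0), ⟨hj.1, .inl ⟨rfl, rfl, rfl⟩⟩, A_iff.2 (by omega), eq4 (by omega)⟩
    · obtain ⟨j, b1, d, b2, b3, b4, b5, rfl⟩ := h2 i a.1 c' (by omega) (by omega)
      have b6 := (h1 j b1 d b2 b4 b5).2.2
      refine ⟨(j, d, p', t'), ⟨b1, .inr ⟨b4, b5, b2, ?_⟩⟩, A_iff.2 (by omega), ?_⟩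
      · obtain ⟨-, b | ⟨-, -, -, b | ⟨b, b', e | e⟩⟩⟩ := b
        exacts [by omega, .inl b, .inr ⟨b, b', .inl e⟩, .inr ⟨b, b', .inr (e ▸ b6)⟩]
      · rcases Fm_eq π j d p' t' with ⟨h, k⟩ | ⟨h, q, hq, k⟩
        · omega
        · exact k.trans (eq4 (by omega))
    · obtain ⟨j, hj⟩ : ∃ j, j % 2 = i' ∧ (j = i ∨ j + 1 = i) := ⟨if i % 2 = i' then i else i - 1, by split_ifs <;> omega⟩
      exact ⟨(j, 0, 0, 0), ⟨by omega, .inl ⟨rfl, rfl, rfl⟩⟩, A_iff.2 (by omega), eq4 (by omega)⟩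
    · obtain ⟨r, hr⟩ : ∃ r, ((p = 0 ∨ p' = 0) ∧ r = p') ∨ (p ≠ 0 ∧ p' ≠ 0 ∧ r = p) :=
        ⟨if p = 0 ∨ p' = 0 then p' else p, by split_ifs <;> omega⟩
      refine ⟨(i, c, r, t'), In_iff.2 ⟨a.1, .inr ⟨by omega, by omega, by omega, ?_⟩⟩, A_iff.2 (by omega), ?_⟩
      · rcases hr with ⟨-, rfl⟩ | ⟨h1, h2, rfl⟩
        · obtain ⟨-, b | ⟨-, -, -, b | ⟨b, b', f | f⟩⟩⟩ := b
          exacts [by omega, .inl b, .inr ⟨b, b', .inl f⟩,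
            .inr ⟨b, b', .inr (by rw [f, show c' = π i c by omega]; exact (h1 i a.1 c (by omega) (by omega) (by omega)).2.2)⟩]
        · obtain ⟨-, a | ⟨-, -, -, a | a⟩⟩ := In_iff.1 a
          exacts [by omega, by omega, .inr ⟨a.1, by omega, a.2.2⟩]
      · rcases Fm_eq π i c r t' with ⟨h, k⟩ | ⟨h, q, hq, k⟩
        · omega
        · exact k.trans (eq4 (by omega))

end Pool.Agent.H.MP_a950c6_lc
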