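import Pool.Agent.H.MP_a950c6_lc.A

namespace Pool.Agent.H.MP_a950c6_lc

open Pool.Agent.Lib.CX Finset

theorem nb {N Z sz db i c p t y} (a : In N Z sz db (i, c, p, t)) (hp : p ≠ 0) (b : In N Z sz db y)
    (d : A (i, c, p, t) y) : y = (i, c, 0, 0) ∨ y = (i - 1, 0, 0, 0) ∨ y = (i, 0, 0, 0) ∨
      ∃ s < p / 2, s ≠ t ∧ y = (i, c, p, s) := by
  obtain ⟨i1, c1, p1, t1⟩ := y
  have := a.w
  have := b.w
  rw [A_iff] at d
  have : (i1 = i ∧ c1 = c ∧ p1 = 0 ∧ t1 = 0) ∨ (i1 = i - 1 ∧ c1 = 0 ∧ p1 = 0 ∧ t1 = 0) ∨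
      (i1 = i ∧ c1 = 0 ∧ p1 = 0 ∧ t1 = 0) ∨ (i1 = i ∧ c1 = c ∧ p1 = p ∧ t1 < p / 2 ∧ t1 ≠ t) := by omega
  exact this.imp eq4 (.imp eq4 (.imp eq4 fun h => ⟨t1, by omega, by omega, eq4 (by omega)⟩))

section
variable {N Z : ℕ} {sz : ℕ → ℕ} {db : ℕ → ℕ → ℕ → Prop} {F : K → K} (hN : 2 ≤ N)
  (h1 : ∀ x, In N Z sz db x → InR N (F x)) (h2 : ∀ x, In N Z sz db x → ∀ y, In N Z sz db y → A x y → A (F x) (F y))
  (h3 : ∀ x, In N Z sz db x → ∀ z, InR N z → A (F x) z → ∃ y, In N Z sz db y ∧ A x y ∧ F y = z)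
include hN h1 h2 h3

theorem s1 {i c p t} (a : In N Z sz db (i, c, p, t)) (hp : p ≠ 0) : (F (i, c, p, t)).2.2.1 ≠ 0 := fun e => by
  have k : ∀ z, InR N z → ∀ z', InR N z' → A (F (i, c, p, t)) z → A (F (i, c, p, t)) z' → z = z' ∨ A z z' :=
    fun z b z' b' d d' => by
    obtain ⟨y1, b1, d1, rfl⟩ := h3 _ a z b d
    obtain ⟨y2, b2, d2, rfl⟩ := h3 _ a z' b' d'
    have : 1 ≤ i ∧ 1 ≤ c := by have := a.w; omega
    by_cases q : y1 = y2
    · exact .inl (congrArg F q)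
    refine .inr (h2 _ b1 _ b2 ?_)
    rcases nb a hp b1 d1 with rfl | rfl | rfl | ⟨_, -, -, rfl⟩ <;>
      rcases nb a hp b2 d2 with rfl | rfl | rfl | ⟨_, -, -, rfl⟩ <;> rw [A_iff] <;>
      simp only [Prod.mk.injEq] at q <;> first | omega | simp at q ⊢ <;> omega
  have := h1 _ a
  generalize F _ = y at *
  obtain ⟨j, w, q, s⟩ := y
  rw [InR_iff] at this
  dsimp only at e
  by_cases h : w = 0
  · have := k (1, 1, 0, 0) (InR_iff.2 (by omega)) (1, 2, 0, 0) (InR_iff.2 (by omega)) (A_iff.2 (by omega))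
      (A_iff.2 (by omega))
    simp [A_iff] at this
  · have := k (1, w, 2 * w, 0) (InR_iff.2 (by omega)) (1, w, 2 * w + 1, 0) (InR_iff.2 (by omega)) (A_iff.2 (by omega))
      (A_iff.2 (by omega))
    simp [A_iff, h] at this

theorem s2 {i c p t} (a : In N Z sz db (i, c, p, t)) (hc : c ≠ 0) {z} (b : InR N z) (d : A (F (i, c, p, t)) z)
    (e : z.2.2.1 = 0) : (p ≠ 0 ∧ z = F (i, c, 0, 0)) ∨ z = F (i - 1, 0, 0, 0) ∨ z = F (i, 0, 0, 0) := by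
  obtain ⟨⟨i1, c1, p1, t1⟩, b1, d1, rfl⟩ := h3 _ a z b d
  have : p1 = 0 := by by_contra q; exact s1 hN h1 h2 h3 b1 q e
  have := a.w
  have := b1.w
  rw [A_iff] at d1
  have : (p ≠ 0 ∧ i1 = i ∧ c1 = c ∧ p1 = 0 ∧ t1 = 0) ∨ (i1 = i - 1 ∧ c1 = 0 ∧ p1 = 0 ∧ t1 = 0) ∨
    (i1 = i ∧ c1 = 0 ∧ p1 = 0 ∧ t1 = 0) := by omega
  exact this.imp (fun h => ⟨h.1, congrArg F (eq4 h.2)⟩) (Or.imp (fun h => congrArg F (eq4 h)) fun h => congrArg F (eq4 h))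

theorem s3 {i c} (a : In N Z sz db (i, c, 0, 0)) (hc : c ≠ 0) : (F (i, c, 0, 0)).2.1 ≠ 0 := fun e => by
  have k := fun z => s2 hN h1 h2 h3 a hc (z := z)
  have := h1 _ a
  generalize F (i, c, 0, 0) = y at *
  obtain ⟨j, w, q, s⟩ := y
  rw [InR_iff] at this
  dsimp only at e
  have k1 := k (1, 1, 0, 0) (InR_iff.2 (by omega)) (A_iff.2 (by omega)) rfl
  have k2 := k (1, 2, 0, 0) (InR_iff.2 (by omega)) (A_iff.2 (by omega)) rfl
  have k3 := k (1 - j, 0, 0, 0) (InR_iff.2 (by omega)) (A_iff.2 (by omega)) rfl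
  simp only [ne_eq, not_true, false_and, false_or] at k1 k2 k3
  rcases k1 with k1 | k1 <;> rw [← k1] at k2 k3 <;> rcases k2 with k2 | k2 <;> rcases k3 with k3 | k3 <;>
    first | (simp at k2; done) | (simp at k3; done) | (rw [← k2] at k3; simp at k3)

theorem s4 {i c p t} (a : In N Z sz db (i, c, p, t)) (hp : p ≠ 0) : F (i, c, 0, 0) = (1, (F (i, c, p, t)).2.1, 0, 0) ∧
    (F (i - 1, 0, 0, 0)).2.1 = 0 ∧ (F (i, 0, 0, 0)).2.1 = 0 := by
  have a' := a.w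
  have k := fun z => s2 hN h1 h2 h3 a (by omega) (z := z)
  have k0 := s3 hN h1 h2 h3 (i := i) (c := c) (In_iff.2 ⟨a.1, .inr ⟨by omega, by omega, by omega, .inl ⟨rfl, rfl⟩⟩⟩)
    (by omega)
  have e := s1 hN h1 h2 h3 a hp
  have := h1 _ a
  generalize F (i, c, p, t) = y at *
  obtain ⟨j, w, q, s⟩ := y
  rw [InR_iff] at this
  dsimp only at e ⊢
  have k1 := k (1, w, 0, 0) (InR_iff.2 (by omega)) (A_iff.2 (by omega)) rfl
  have k2 := k (0, 0, 0, 0) (InR_iff.2 (by omega)) (A_iff.2 (by omega)) rfl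
  have k3 := k (1, 0, 0, 0) (InR_iff.2 (by omega)) (A_iff.2 (by omega)) rfl
  generalize F (i, c, 0, 0) = x, F (i - 1, 0, 0, 0) = y, F (i, 0, 0, 0) = z at *
  obtain ⟨x1, x2, x3, x4⟩ := x
  obtain ⟨y1, y2, y3, y4⟩ := y
  obtain ⟨z1, z2, z3, z4⟩ := z
  simp only [Prod.mk.injEq] at *
  omega

theorem s5 {i c p t} (a : In N Z sz db (i, c, p, t)) (hp : p ≠ 0) : (F (i, c, p, t)).2.2.1 / 2 = p / 2 := by
  have a' := a.w
  have b : ∀ s < p / 2, In N Z sz db (i, c, p, s) := fun s h => by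
    obtain ⟨a1, a | ⟨a2, a3, a4, a | a⟩⟩ := In_iff.1 a
    exacts [by omega, by omega, In_iff.2 ⟨a1, .inr ⟨a2, a3, a4, .inr ⟨a.1, h, a.2.2⟩⟩⟩]
  have d : ∀ s < p / 2, ∀ r < p / 2, (F (i, c, p, s)).2.2.1 = (F (i, c, p, r)).2.2.1 ∧
      ((F (i, c, p, s)).2.2.2 = (F (i, c, p, r)).2.2.2 → s = r) ∧
      (F (i, c, p, s)).2.2.2 < (F (i, c, p, s)).2.2.1 / 2 := fun s h r h' => by
    have e1 := s1 hN h1 h2 h3 (b s h) hp
    have e2 := s1 hN h1 h2 h3 (b r h') hp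
    have e3 := h1 _ (b s h)
    have e4 := h1 _ (b r h')
    by_cases q : s = r
    · subst q
      generalize F (i, c, p, s) = x at *
      obtain ⟨x1, x2, x3, x4⟩ := x
      rw [InR_iff] at e3
      dsimp only at *
      omega
    have e5 := h2 _ (b s h) _ (b r h') (A_iff.2 (by omega))
    clear a' b h h'
    generalize F (i, c, p, s) = x, F (i, c, p, r) = y at *
    obtain ⟨x1, x2, x3, x4⟩ := x
    obtain ⟨y1, y2, y3, y4⟩ := y
    rw [InR_iff] at e3 e4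
    rw [A_iff] at e5
    dsimp only at *
    omega
  refine le_antisymm ?_ ?_
  · refine (card_range _).ge.trans ((card_le_card_of_surjOn (s := range (p / 2)) (fun s => (F (i, c, p, s)).2.2.2)
      fun s hs => ?_).trans (card_range _).le)
    simp only [coe_range, Set.mem_Iio, Set.mem_image] at hs ⊢
    by_cases q0 : s = (F (i, c, p, t)).2.2.2
    · exact ⟨t, by omega, q0.symm⟩
    have e := s1 hN h1 h2 h3 a hp
    have f := s4 hN h1 h2 h3 a hp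
    have := h1 _ a
    have k := h3 _ a
    generalize F (i, c, p, t) = y at *
    obtain ⟨j, w, q, r⟩ := y
    rw [InR_iff] at this
    dsimp only at *
    obtain ⟨y1, b1, d1, e1⟩ := k (1, w, q, s) (InR_iff.2 (by omega)) (A_iff.2 (by omega))
    rcases nb a hp b1 d1 with rfl | rfl | rfl | ⟨t1, h, -, rfl⟩
    · simp [e1, e] at f
    · simp [e1] at f; omega
    · simp [e1] at f; omega
    · exact ⟨t1, h, by rw [e1]⟩
  · refine (card_range _).ge.trans ((card_le_card_of_injOn (t := range _) (fun s => (F (i, c, p, s)).2.2.2)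
      (fun s hs => ?_) fun s hs r hr => (d s (by simpa using hs) r (by simpa using hr)).2.1).trans (card_range _).le)
    have := d s (by simpa using hs) t (by omega)
    simpa [← this.1] using this.2.2

theorem fwd (hZ : 1 ≤ Z) (hs : ∀ i, 1 ≤ sz i) : ∃ π : ℕ → ℕ → ℕ,
    (∀ i ≤ Z, ∀ c ≤ sz i, 1 ≤ i → 1 ≤ c → 1 ≤ π i c ∧ π i c ≤ N ∧ db i c (π i c)) ∧
    ∀ i ≤ Z, ∀ w ≤ N, 1 ≤ w → ∃ j ≤ Z, ∃ c ≤ sz j, (j = i ∨ j = i + 1) ∧ 1 ≤ j ∧ 1 ≤ c ∧ π j c = w := by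
  have b : ∀ i ≤ Z, ∀ c ≤ sz i, 1 ≤ i → 1 ≤ c → In N Z sz db (i, c, 2, 0) := fun i a c b d e =>
    In_iff.2 ⟨a, .inr ⟨d, e, b, .inr ⟨by omega, by omega, .inl rfl⟩⟩⟩
  have L : ∀ i ≤ Z, (F (i, 0, 0, 0)).2.1 = 0 := fun i h => by
    rcases i with _ | i
    · exact (s4 hN h1 h2 h3 (b 1 hZ 1 (hs 1) le_rfl le_rfl) two_ne_zero).2.1
    · exact (s4 hN h1 h2 h3 (b _ h 1 (hs _) (by omega) le_rfl) two_ne_zero).2.2
  refine ⟨fun i c => (F (i, c, 0, 0)).2.1, fun i a c d e f => ?_, fun i a w d e => ?_⟩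
  · have g : In N Z sz db (i, c, 0, 0) := In_iff.2 ⟨a, .inr ⟨e, f, d, .inl ⟨rfl, rfl⟩⟩⟩
    have g1 := (s4 hN h1 h2 h3 (b i a c d e f) two_ne_zero).1
    have g2 := s3 hN h1 h2 h3 g (by omega)
    have g3 := h1 _ g
    have g4 := h3 _ g
    generalize (F (i, c, 2, 0)).2.1 = w at g1
    simp only [g1] at g2 g3 g4 ⊢
    rw [InR_iff] at g3
    refine ⟨by omega, by omega, ?_⟩
    have k : ∀ q, q / 2 = w → ∃ p t, In N Z sz db (i, c, p, t) ∧ p / 2 = w ∧ F (i, c, p, t) = (1, w, q, 0) :=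
      fun q h => by
      obtain ⟨⟨i1, c1, p1, t1⟩, b1, d1, e1⟩ := g4 (1, w, q, 0) (InR_iff.2 (by omega)) (A_iff.2 (by omega))
      have := b1.w
      rw [A_iff] at d1
      by_cases k : c1 = 0
      · obtain ⟨rfl, rfl, rfl⟩ : c1 = 0 ∧ p1 = 0 ∧ t1 = 0 := by omega
        have := L i1 b1.1
        simp [e1, g2] at this
      · obtain ⟨rfl, rfl⟩ : i1 = i ∧ c1 = c := by omega
        exact ⟨p1, t1, b1, by rw [← s5 hN h1 h2 h3 b1 (by omega), e1, h], e1⟩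
    obtain ⟨p, t, a1, a2, a3⟩ := k (2 * w) (by omega)
    obtain ⟨p', t', b1, b2, b3⟩ := k (2 * w + 1) (by omega)
    have : p ≠ p' := by
      rintro rfl
      by_cases q : t = t'
      · simp [q, b3] at a3
      · have := h2 _ a1 _ b1 (A_iff.2 (by omega))
        rw [a3, b3, A_iff] at this
        omega
    obtain ⟨-, a1 | ⟨-, -, -, a1 | ⟨-, -, a1 | a1⟩⟩⟩ := In_iff.1 a1
    · omega
    · omega
    · obtain ⟨-, b1 | ⟨-, -, -, b1 | ⟨-, -, b1 | b1⟩⟩⟩ := In_iff.1 b1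
      exacts [by omega, by omega, by omega, b2 ▸ b1]
    · exact a2 ▸ a1
  · have g : In N Z sz db (i, 0, 0, 0) := ⟨a, .inl ⟨rfl, rfl, rfl⟩⟩
    have g1 := L i a
    have g3 := h1 _ g
    have g4 := h3 _ g (1, w, 0, 0) (InR_iff.2 (by omega))
    generalize F (i, 0, 0, 0) = y at *
    obtain ⟨y1, y2, y3, y4⟩ := y
    rw [InR_iff] at g3
    dsimp only at g1
    obtain ⟨⟨i1, c1, p1, t1⟩, b1, d1, e1⟩ := g4 (A_iff.2 (by omega))
    have := b1.w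
    rw [A_iff] at d1
    have k : p1 = 0 := by by_contra q; exact s1 hN h1 h2 h3 b1 q (by rw [e1])
    by_cases k' : c1 = 0
    · obtain ⟨rfl, rfl, rfl⟩ : c1 = 0 ∧ p1 = 0 ∧ t1 = 0 := by omega
      have := L i1 b1.1
      simp [e1] at this; omega
    · obtain ⟨rfl, rfl⟩ : p1 = 0 ∧ t1 = 0 := by omega
      exact ⟨i1, b1.1, c1, by omega, by omega, by omega, by omega, by simp [e1]⟩

end

end Pool.Agent.H.MP_a950c6_lc
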