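import Pool.Agent.H.MP_a950c6_lc.B

namespace Pool.Agent.H.MP_a950c6_lc

open Pool.Agent.Lib.CX Finset

def sz (n m k i : ℕ) : ℕ := if i = 1 ∨ i = 2 * m + 3 then n + 2 else if i % 2 = 0 then k + 1 else n + 1 - k
def db (n : ℕ) (es : List (ℕ × ℕ)) (i c j : ℕ) : Prop := i % 2 = 1 ∨ c ≠ 1 ∨
  j = (((n, n + 1) :: es).getD (i / 2 - 1) (0, 0)).1 + 1 ∨ j = (((n, n + 1) :: es).getD (i / 2 - 1) (0, 0)).2 + 1
instance (n es i c j) : Decidable (db n es i c j) := by unfold db; infer_instance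

theorem enum1 (L : List ℕ) (x : ℕ) : ∃ p : ℕ → ℕ, (∀ c, p c ∈ x :: L) ∧ p 1 = L.headD x ∧
    ∀ w ∈ L, ∃ c ≤ L.length, 1 ≤ c ∧ p c = w := by
  refine ⟨fun c => L.getD (c - 1) x, fun c => ?_, by cases L <;> rfl, fun w h => ?_⟩
  · simp only [List.getD_eq_getElem?_getD]
    cases e : L[c - 1]? with
    | none => simp
    | some y => simp [List.mem_of_getElem? e]
  · obtain ⟨i, k, rfl⟩ := List.getElem_of_mem h
    exact ⟨i + 1, k, by omega, by simp [k]⟩

theorem vc (n : ℕ) (es : List (ℕ × ℕ)) (k : ℕ) (h1 : ∀ e ∈ es, e.1 < e.2 ∧ e.2 < n) (hk : k ≤ n) :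
    (∃ S : Finset ℕ, (∀ x ∈ S, x < n) ∧ (∀ e ∈ es, e.1 ∈ S ∨ e.2 ∈ S) ∧ #S ≤ k) ↔ ∃ π : ℕ → ℕ → ℕ,
      (∀ i ≤ 2 * es.length + 3, ∀ c ≤ sz n es.length k i, 1 ≤ i → 1 ≤ c →
        1 ≤ π i c ∧ π i c ≤ n + 2 ∧ db n es i c (π i c)) ∧
      ∀ i ≤ 2 * es.length + 3, ∀ w ≤ n + 2, 1 ≤ w → ∃ j ≤ 2 * es.length + 3, ∃ c ≤ sz n es.length k j,
        (j = i ∨ j = i + 1) ∧ 1 ≤ j ∧ 1 ≤ c ∧ π j c = w := by
  constructor
  · rintro ⟨S, s1, s2, s3⟩
    obtain ⟨X, x1, x2, x3⟩ := exists_subsuperset_card_eq (n := k + 1) (s := insert (n + 1) (S.image (· + 1)))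
      (t := Icc 1 (n + 2)) (fun x hx => by
        simp only [mem_insert, mem_image, mem_Icc] at hx ⊢
        obtain rfl | ⟨y, hy, rfl⟩ := hx
        · omega
        · have := s1 y hy; omega)
      ((card_insert_le _ _).trans (by have := card_image_le (s := S) (f := (· + 1)); omega)) (by simp; omega)
    have : ∀ i, ∃ p : ℕ → ℕ, (∀ c, p c ∈ Icc 1 (n + 2)) ∧ (1 ≤ i → i ≤ 2 * es.length + 3 → db n es i 1 (p 1)) ∧
        ∀ w ∈ Icc 1 (n + 2), (i = 1 ∨ i = 2 * es.length + 3 ∨ (i % 2 = 0 ↔ w ∈ X)) →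
          ∃ c ≤ sz n es.length k i, 1 ≤ c ∧ p c = w := fun i => by
      by_cases h : i = 1 ∨ i = 2 * es.length + 3
      · obtain ⟨p, a, -, b⟩ := enum1 (Icc 1 (n + 2)).toList 1
        exact ⟨p, fun c => by have := a c; simp at this ⊢; omega, fun _ _ => .inl (by omega),
          fun w hw _ => by simpa [sz, h] using b w (by simpa using hw)⟩
      by_cases h' : i % 2 = 0
      · obtain ⟨x, a, b⟩ : ∃ x ∈ X, 1 ≤ i → i ≤ 2 * es.length + 3 → db n es i 1 x := by
          by_cases q : 1 ≤ i ∧ i ≤ 2 * es.length + 3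
          · have : ∀ e ∈ (n, n + 1) :: es, e.1 + 1 ∈ X ∨ e.2 + 1 ∈ X := List.forall_mem_cons.2 ⟨.inl (x1 (by simp)),
              fun e he => (s2 e he).imp (fun h => x1 (by simp [h])) fun h => x1 (by simp [h])⟩
            have := this (((n, n + 1) :: es).getD (i / 2 - 1) (0, 0)) (by
              rw [List.getD_eq_getElem _ _ (by simp; omega)]; exact List.getElem_mem _)
            exact this.elim (fun h => ⟨_, h, fun _ _ => .inr (.inr (.inl rfl))⟩)
              fun h => ⟨_, h, fun _ _ => .inr (.inr (.inr rfl))⟩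
          · exact ⟨n + 1, x1 (by simp), fun _ _ => by omega⟩
        obtain ⟨p, c, d, e⟩ := enum1 (x :: (X.erase x).toList) x
        refine ⟨p, fun j => x2 (by have := c j; simp at this; rcases this with h | h <;> simp [h, a]),
          d ▸ b, fun w _ hw => ?_⟩
        have : w ∈ X := by tauto
        simpa [sz, h, h', card_erase_of_mem a, x3] using e w (by by_cases w = x <;> simp [*])
      · obtain ⟨p, a, -, b⟩ := enum1 (Icc 1 (n + 2) \ X).toList 1
        refine ⟨p, fun c => by have := a c; simp at this ⊢; omega, fun _ _ => .inl (by omega), fun w hw q => ?_⟩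
        have : w ∉ X := by tauto
        simpa [sz, h, h', card_sdiff_of_subset x2, x3] using b w (by simpa [this] using hw)
    choose π a b c using this
    refine ⟨π, fun i hi j _ h _ => ⟨(mem_Icc.1 (a i j)).1, (mem_Icc.1 (a i j)).2, ?_⟩, fun i hi w h h' => ?_⟩
    · by_cases q : j = 1
      · exact q ▸ b i h hi
      · exact .inr (.inl q)
    · obtain ⟨j, j1, j2, j3, j4⟩ : ∃ j ≤ 2 * es.length + 3, (j = i ∨ j = i + 1) ∧ 1 ≤ j ∧
          (j = 1 ∨ j = 2 * es.length + 3 ∨ (j % 2 = 0 ↔ w ∈ X)) := by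
        by_cases q : w ∈ X <;> simp only [q, iff_true, iff_false]
        · exact ⟨if i = 0 ∨ i % 2 = 1 ∧ i < 2 * es.length + 3 then i + 1 else i, by split_ifs <;> omega⟩
        · exact ⟨if i % 2 = 0 then i + 1 else i, by split_ifs <;> omega⟩
      obtain ⟨d, e, f, g⟩ := c j w (mem_Icc.2 ⟨h', h⟩) j4
      exact ⟨j, j1, d, e, j2, j3, f, g⟩
  · rintro ⟨π, a, b⟩
    let X := fun i => (Icc 1 (sz n es.length k i)).image (π i)
    have x1 : ∀ i, #(X i) ≤ sz n es.length k i := fun i => card_image_le.trans (by simp)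
    have x2 : ∀ i ≤ 2 * es.length + 3, Icc 1 (n + 2) \ X (i + 1) ⊆ X i ∧ Icc 1 (n + 2) \ X i ⊆ X (i + 1) := fun i hi => by
      have : ∀ w ∈ Icc 1 (n + 2), w ∈ X i ∨ w ∈ X (i + 1) := fun w hw => by
        obtain ⟨j, -, c, h1, h2, -, h3, rfl⟩ := b i hi w (mem_Icc.1 hw).2 (mem_Icc.1 hw).1
        rcases h2 with rfl | rfl
        exacts [.inl (mem_image_of_mem _ (mem_Icc.2 ⟨h3, h1⟩)), .inr (mem_image_of_mem _ (mem_Icc.2 ⟨h3, h1⟩))]
      exact ⟨fun w hw => (this w (mem_sdiff.1 hw).1).resolve_right (mem_sdiff.1 hw).2,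
        fun w hw => (this w (mem_sdiff.1 hw).1).resolve_left (mem_sdiff.1 hw).2⟩
    have x3 : ∀ e ≤ es.length, X (2 * e + 2) = X 2 := fun e => by
      induction e with
      | zero => simp
      | succ e ih =>
        intro h
        have l := le_card_sdiff (X (2 * e + 3)) (Icc 1 (n + 2))
        have l1 := x1 (2 * e + 2)
        have l2 := x1 (2 * e + 3)
        have l3 := x1 (2 * e + 4)
        rw [sz, if_neg (by omega), if_pos (by omega)] at l1 l3
        rw [sz, if_neg (by omega), if_neg (by omega)] at l2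
        rw [Nat.card_Icc] at l
        exact ((eq_of_subset_of_card_le (x2 (2 * e + 3) (by omega)).2 (l3.trans (by omega))).symm.trans
          (eq_of_subset_of_card_le (x2 (2 * e + 2) (by omega)).1 (l1.trans (le_trans (by omega) l)))).trans (ih (by omega))
    have x4 : ∀ e ∈ (n, n + 1) :: es, e.1 + 1 ∈ X 2 ∨ e.2 + 1 ∈ X 2 := fun e he => by
      obtain ⟨j, hj, rfl⟩ := List.getElem_of_mem he
      have hj' : j ≤ es.length := by simpa [Nat.lt_succ_iff] using hj
      have s : 1 ≤ sz n es.length k (2 * j + 2) := by rw [sz, if_neg (by omega), if_pos (by omega)]; omega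
      have := (a (2 * j + 2) (by omega) 1 s (by omega) le_rfl).2.2
      have m : π (2 * j + 2) 1 ∈ X 2 := x3 j hj' ▸ mem_image_of_mem _ (mem_Icc.2 ⟨le_rfl, s⟩)
      rw [db, show (2 * j + 2) / 2 - 1 = j by omega, List.getD_eq_getElem _ _ hj] at this
      rcases this with h | h | h | h
      exacts [by omega, by omega, .inl (h ▸ m), .inr (h ▸ m)]
    refine ⟨{v ∈ range n | v + 1 ∈ X 2}, by simp +contextual, fun e he => ?_, ?_⟩
    · have := h1 e he
      simpa [this.2, this.1.trans this.2] using x4 e (by simp [he])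
    · obtain ⟨x, h, h'⟩ : ∃ x ∈ X 2, n < x := (x4 _ List.mem_cons_self).elim (⟨_, ·, by simp⟩) (⟨_, ·, by simp⟩)
      have := x1 2
      rw [sz, if_neg (by omega), if_pos (by omega)] at this
      refine (card_le_card_of_injOn (t := (X 2).erase x) (· + 1) (fun v hv => ?_) fun _ _ _ _ e => by simpa using e).trans
        (by rw [card_erase_of_mem h]; omega)
      simp only [coe_filter, mem_range, Set.mem_setOf_eq, coe_erase, Set.mem_diff, mem_coe, Set.mem_singleton_iff] at hv ⊢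
      exact ⟨hv.2, by omega⟩

instance (N Z sz db) [∀ i c j, Decidable (db i c j)] (x) : Decidable (In N Z sz db x) := by unfold In; infer_instance

def vs (N Z : ℕ) (sz : ℕ → ℕ) (db : ℕ → ℕ → ℕ → Prop) [∀ i c j, Decidable (db i c j)] : List K :=
  (List.range (Z + 1) ×ˢ (List.range (N + 1) ×ˢ (List.range (2 * N + 2) ×ˢ List.range (N + 1)))).filter
    fun x => decide (In N Z sz db x)

theorem mem_vs {N Z sz db} [∀ i c j, Decidable (db i c j)] (h : ∀ i, sz i ≤ N) (x) :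
    x ∈ vs N Z sz db ↔ In N Z sz db x := by
  obtain ⟨i, c, p, t⟩ := x
  simp only [vs, List.mem_filter, decide_eq_true_eq, List.mem_product, List.mem_range, and_iff_right_iff_imp]
  intro a
  have := a.w
  have := h i
  omega

def red (a : List Unit × List (ℕ × ℕ) × ℕ) : Gr × Gr :=
  (relGr (vs (a.1.length + 2) (2 * a.2.1.length + 3) (sz a.1.length a.2.1.length a.2.2) (db a.1.length a.2.1))
      fun e => decide (A0 e.1 e.2),
    relGr (vs (a.1.length + 2) 1 (fun _ => a.1.length + 2) fun _ c j => j = c) fun e => decide (A0 e.1 e.2))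

set_option synthInstance.maxSize 2000 in
theorem pt_red : PT red :=
  (PT.relGr (by unfold vs In sz db; fun_prop) (by unfold A0; fun_prop)).pair
    (PT.relGr (by unfold vs In; fun_prop) (by unfold A0; fun_prop))

theorem valid (a) : IsInterval (red a).1.G := interval _ (2 * (a.1.length + 2) + 2) fun ⟨i, c, p, t⟩ h => by
  simp only [vs, List.mem_filter, decide_eq_true_eq, List.mem_product, List.mem_range] at h ⊢
  have := h.2.w
  omega

theorem key (n : List Unit) (es : List (ℕ × ℕ)) (k : ℕ) (h1 : ∀ e ∈ es, e.1 < e.2 ∧ e.2 < n.length)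
    (hk : k ≤ n.length) : (∃ S : Finset ℕ, (∀ x ∈ S, x < n.length) ∧ (∀ e ∈ es, e.1 ∈ S ∨ e.2 ∈ S) ∧ #S ≤ k) ↔
      HasRole (red (n, es, k)).1.G (red (n, es, k)).2.G := by
  refine (vc _ es k h1 hk).trans (.trans ?_ (ls _ _ _ A fun x y => by simp [A]).symm)
  have a : ∀ i, sz n.length es.length k i ≤ n.length + 2 := fun i => by unfold sz; split_ifs <;> omega
  simp only [mem_vs a, mem_vs (sz := fun _ => n.length + 2) fun _ => le_rfl]
  exact ⟨fun ⟨π, a, b⟩ => bwd a b (by omega), fun ⟨F, a, b, c⟩ => fwd (by omega) a b c (by omega) fun i => by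
    unfold sz; split_ifs <;> omega⟩

def chk (a : Gr × Gr) (L : List ℕ) : Prop := L.length = a.1.n ∧ (∀ x ∈ L, x < a.2.n) ∧ ∀ u ∈ List.range a.1.n,
  (∀ v ∈ List.range a.1.n, a.1.adjB u v = true → a.2.adjB (L.getD u 0) (L.getD v 0) = true) ∧
    ∀ z ∈ List.range a.2.n, a.2.adjB (L.getD u 0) z = true → ∃ v ∈ List.range a.1.n, a.1.adjB u v = true ∧ L.getD v 0 = z
instance (a c) : Decidable (chk a c) := by unfold chk; infer_instance

set_option synthInstance.maxSize 2000 in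
theorem inNP : InNP fun a : Gr × Gr => HasRole a.1.G a.2.G := by
  refine InNP.of_cert' chk (fun a => a.1.n * (3 * a.2.n + 3) + 2) (by unfold chk; fun_prop) (by fun_prop) ?_ ?_
  · rintro a L ⟨h1, h3, h4⟩
    have e : ∀ u : Fin a.1.n, L.getD u 0 < a.2.n := fun u => by
      rw [List.getD_eq_getElem _ _ (u.2.trans_eq h1.symm)]; exact h3 _ (List.getElem_mem _)
    have k : ∀ {u v}, a.1.G.Adj u v → a.2.G.Adj ⟨_, e u⟩ ⟨_, e v⟩ := fun {u v} h => (Gr.adjB_iff _ _ _).1
      ((h4 u (by simp)).1 v (by simp) ((Gr.adjB_iff _ _ _).2 h))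
    refine ⟨⟨fun u => ⟨_, e u⟩, k⟩, fun u => Set.Subset.antisymm ?_ fun z hz => ?_⟩
    · rintro _ ⟨v, h, rfl⟩; exact k h
    · obtain ⟨v, b, c, d⟩ := (h4 u (by simp)).2 z (by simp) ((Gr.adjB_iff _ _ _).2 hz)
      exact ⟨⟨v, List.mem_range.1 b⟩, (Gr.adjB_iff _ _ _).1 c, Fin.ext d⟩
  · rintro a ⟨c, hc⟩
    refine ⟨List.ofFn fun u => (c u).1, (size_list_le (B := 3 * a.2.n + 2) ?_).trans (by simp), by simp,
      by simp, fun u hu => ⟨fun v hv h => ?_, fun z hz h => ?_⟩⟩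
    · simp only [List.forall_mem_ofFn_iff]
      exact fun u => (size_nat_le _).trans (by have := (c u).2; omega)
    · rw [List.mem_range] at hu hv
      simpa [hu, hv] using (Gr.adjB_iff _ _ _).2 (c.map_rel ((Gr.adjB_iff _ ⟨u, hu⟩ ⟨v, hv⟩).1 h))
    · rw [List.mem_range] at hu hz
      obtain ⟨v, b, e⟩ := (hc ⟨u, hu⟩).ge ((Gr.adjB_iff _ _ ⟨z, hz⟩).1 (by simpa [hu] using h))
      exact ⟨v, by simp, (Gr.adjB_iff _ _ _).2 b, by simp [e]⟩

attribute [local irreducible] red in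
theorem complete : NPComplete fun a : {a : Gr × Gr // IsInterval a.1.G} => HasRole a.1.1.G a.1.2.G :=
  ⟨inNP.red ⟨fun a => a.1, PT.val PT.id, fun _ => .rfl⟩, NPHard.of_vc
    (fun a => ⟨red a, valid a⟩) (pt_red.subtype _) fun n es k h1 _ hk => key n es k h1 hk⟩

end Pool.Agent.H.MP_a950c6_lc
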