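import Pool.Agent.Lib.lead.CXGraph

namespace Pool.Agent.H.MP_a950c6_lc

variable {V W : Type}

/-- intersection graphs of closed real intervals -/
def IsInterval (G : SimpleGraph V) : Prop :=
  ∃ l r : V → ℝ, (∀ v, l v ≤ r v) ∧
    ∀ u v, G.Adj u v ↔ u ≠ v ∧ (Set.Icc (l u) (r u) ∩ Set.Icc (l v) (r v)).Nonempty

/-- there is a locally surjective homomorphism from `G` to `R` -/
def HasRole (G : SimpleGraph V) (R : SimpleGraph W) : Prop :=
  ∃ f : G →g R, ∀ u, f '' G.neighborSet u = R.neighborSet (f u)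

end Pool.Agent.H.MP_a950c6_lc
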